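import Pool.Agent.H429R4.Dehn.Defs

/-!
# Sums of signed powers of two
-/

namespace Pool.Agent.H429R4.Dehn

theorem key {a b e t : ℤ} (he : |e| ≤ 1) (h : a + 2 * b = e + 4 * t) : |e| + |t| ≤ |a| + |b| := by
  rcases abs_cases a with ⟨h1, h1'⟩ | ⟨h1, h1'⟩ <;> rcases abs_cases b with ⟨h2, h2'⟩ | ⟨h2, h2'⟩ <;>
    rcases abs_cases e with ⟨h3, h3'⟩ | ⟨h3, h3'⟩ <;> rcases abs_cases t with ⟨h4, h4'⟩ | ⟨h4, h4'⟩ <;>
    rw [h1, h2, h3, h4] <;> rw [h3] at he <;> omega

theorem naf (M : ℕ) : ∀ (c ε : ℕ → ℤ) (t : ℤ), (∀ i, |ε i| ≤ 1) →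
    t + ∑ i ∈ Finset.range M, (c (2 * i) + 2 * c (2 * i + 1)) * 4 ^ i =
      ∑ i ∈ Finset.range M, ε i * 4 ^ i →
    ∑ i ∈ Finset.range M, |ε i| ≤
      |t| + ∑ i ∈ Finset.range M, (|c (2 * i)| + |c (2 * i + 1)|) := by
  induction M with
  | zero =>
    intro c ε t _ _
    simp
  | succ M ih =>
    intro c ε t hε h
    rw [Finset.sum_range_succ', Finset.sum_range_succ'] at h
    rw [Finset.sum_range_succ', Finset.sum_range_succ']
    have e1 : ∑ i ∈ Finset.range M, (c (2 * (i + 1)) + 2 * c (2 * (i + 1) + 1)) * 4 ^ (i + 1) =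
        4 * ∑ i ∈ Finset.range M, (c (2 * i + 2) + 2 * c (2 * i + 1 + 2)) * 4 ^ i := by
      rw [Finset.mul_sum]
      refine Finset.sum_congr rfl fun i _ => ?_
      rw [show 2 * (i + 1) = 2 * i + 2 by ring, show 2 * i + 2 + 1 = 2 * i + 1 + 2 by ring]
      ring
    have e2 : ∑ i ∈ Finset.range M, ε (i + 1) * 4 ^ (i + 1) =
        4 * ∑ i ∈ Finset.range M, ε (i + 1) * 4 ^ i := by
      rw [Finset.mul_sum]
      refine Finset.sum_congr rfl fun i _ => ?_
      ring
    rw [e1, e2] at h
    simp only [mul_zero, zero_add, pow_zero, mul_one] at h ⊢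
    set A := ∑ i ∈ Finset.range M, (c (2 * i + 2) + 2 * c (2 * i + 1 + 2)) * 4 ^ i
    set B := ∑ i ∈ Finset.range M, ε (i + 1) * 4 ^ i
    have h1 := ih (fun i => c (i + 2)) (fun i => ε (i + 1)) (B - A) (fun i => hε _) (by
      show B - A + A = B
      ring)
    have h2 : (t + c 0) + 2 * c 1 = ε 0 + 4 * (B - A) := by linarith
    have h3 := key (hε 0) h2
    have h4 : |t + c 0| ≤ |t| + |c 0| := abs_add_le _ _
    have e3 : ∑ i ∈ Finset.range M, (|c (2 * (i + 1))| + |c (2 * (i + 1) + 1)|) =
        ∑ i ∈ Finset.range M, (|c (2 * i + 2)| + |c (2 * i + 1 + 2)|) := by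
      refine Finset.sum_congr rfl fun i _ => ?_
      rw [show 2 * (i + 1) = 2 * i + 2 by ring, show 2 * i + 2 + 1 = 2 * i + 1 + 2 by ring]
    rw [e3]
    linarith

theorem sum_pairs (f : ℕ → ℤ) (M : ℕ) : ∑ j ∈ Finset.range (2 * M), f j =
    ∑ i ∈ Finset.range M, (f (2 * i) + f (2 * i + 1)) := by
  induction M with
  | zero => simp
  | succ M ih =>
    rw [show 2 * (M + 1) = 2 * M + 1 + 1 by ring, Finset.sum_range_succ, Finset.sum_range_succ, ih,
      Finset.sum_range_succ]
    ring

/-- The sign of a letter. -/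
def sgn (b : Bool) : ℤ := if b then 1 else -1

/-- The exponent sum of the generator number `j` in a word. -/
def net {k : ℕ} : Word k → ℕ → ℤ
  | [], _ => 0
  | p :: w, j => (if p.1.val = j then sgn p.2 else 0) + net w j

/-- The integer represented by a word, if the generator number `j` stands for `2 ^ j`. -/
def val {k : ℕ} : Word k → ℤ
  | [] => 0
  | p :: w => sgn p.2 * 2 ^ p.1.val + val w

theorem val_append {k : ℕ} (u v : Word k) : val (u ++ v) = val u + val v := by
  induction u with
  | nil => simp [val]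
  | cons p u ih => simp only [List.cons_append, val, ih]; ring

theorem abs_sgn (b : Bool) : |sgn b| = 1 := by
  cases b <;> simp [sgn]

theorem sum_net {k : ℕ} (w : Word k) (N : ℕ) (hN : k ≤ N) :
    ∑ j ∈ Finset.range N, net w j * 2 ^ j = val w := by
  induction w with
  | nil => simp [net, val]
  | cons p w ih =>
    simp only [net, val, add_mul, Finset.sum_add_distrib, ih]
    congr 1
    rw [Finset.sum_eq_single p.1.val]
    · simp
    · intro j _ hj
      rw [if_neg (Ne.symm hj), zero_mul]
    · intro h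
      exact absurd (Finset.mem_range.2 (lt_of_lt_of_le p.1.isLt hN)) h

theorem sum_abs_net_le {k : ℕ} (w : Word k) (N : ℕ) :
    ∑ j ∈ Finset.range N, |net w j| ≤ w.length := by
  induction w with
  | nil => simp [net]
  | cons p w ih =>
    have h1 : ∑ j ∈ Finset.range N, |net (p :: w) j| ≤
        ∑ j ∈ Finset.range N, ((if p.1.val = j then (1 : ℤ) else 0) + |net w j|) := by
      refine Finset.sum_le_sum fun j _ => ?_
      simp only [net]
      refine (abs_add_le _ _).trans ?_
      gcongr
      split_ifs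
      · rw [abs_sgn]
      · simp
    have h2 : ∑ j ∈ Finset.range N, (if p.1.val = j then (1 : ℤ) else 0) ≤ 1 := by
      rw [Finset.sum_ite_eq]
      split_ifs <;> simp
    rw [Finset.sum_add_distrib] at h1
    push_cast [List.length_cons]
    linarith

theorem net_eq_zero {k : ℕ} {w : Word k} {j : ℕ} (h : ∀ p ∈ w, p.1.val ≠ j) : net w j = 0 := by
  induction w with
  | nil => rfl
  | cons p w ih =>
    simp only [net]
    rw [if_neg (h p List.mem_cons_self), ih fun q hq => h q (List.mem_cons_of_mem _ hq), add_zero]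

/-- A word without repeated letters which does not contain a letter and its inverse. -/
theorem net_of_simple {k : ℕ} {u : Word k} (h : (u.map fun p => p.1).Nodup) (N : ℕ) (hN : k ≤ N) :
    (∀ j, |net u j| ≤ 1) ∧ ∑ j ∈ Finset.range N, |net u j| = u.length := by
  induction u with
  | nil => simp [net]
  | cons p u ih =>
    rw [List.map_cons, List.nodup_cons] at h
    obtain ⟨h1, h2⟩ := ih h.2
    have h0 : net u p.1.val = 0 := net_eq_zero fun q hq hqp => h.1 (by
      rw [List.mem_map]
      exact ⟨q, hq, Fin.ext hqp⟩)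
    have h3 : ∀ j, |net (p :: u) j| = (if p.1.val = j then (1 : ℤ) else 0) + |net u j| := by
      intro j
      simp only [net]
      split_ifs with hj
      · subst hj
        rw [h0, add_zero, abs_sgn, abs_zero, add_zero]
      · rw [zero_add, zero_add]
    constructor
    · intro j
      rw [h3]
      split_ifs with hj
      · subst hj
        rw [h0, abs_zero, add_zero]
      · rw [zero_add]
        exact h1 j
    · simp only [h3]
      rw [Finset.sum_add_distrib, h2, Finset.sum_ite_eq,
        if_pos (Finset.mem_range.2 (lt_of_lt_of_le p.1.isLt hN))]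
      push_cast [List.length_cons]
      ring

/-- A word in the generators with even numbers without repeated generators is geodesic. -/
theorem length_le_of_val {k : ℕ} {u v : Word k} (h : (u.map fun p => p.1).Nodup)
    (he : ∀ p ∈ u, p.1.val % 2 = 0) (huv : val u + val v = 0) : u.length ≤ v.length := by
  obtain ⟨h1, h2⟩ := net_of_simple h (2 * k) (by omega)
  have hodd : ∀ i, net u (2 * i + 1) = 0 := fun i => net_eq_zero fun p hp hpi => by
    have := he p hp
    omega
  have h3 : ∑ i ∈ Finset.range k, net u (2 * i) * 4 ^ i = val u := by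
    rw [← sum_net u (2 * k) (by omega), sum_pairs]
    refine Finset.sum_congr rfl fun i _ => ?_
    rw [hodd, zero_mul, add_zero, pow_mul]
    norm_num
  have h4 : ∑ i ∈ Finset.range k, (net v (2 * i) + 2 * net v (2 * i + 1)) * 4 ^ i = val v := by
    rw [← sum_net v (2 * k) (by omega), sum_pairs]
    refine Finset.sum_congr rfl fun i _ => ?_
    rw [pow_succ, pow_mul]
    norm_num
    ring
  have h5 := naf k (fun j => - net v j) (fun i => net u (2 * i)) 0 (fun i => h1 _) (by
    rw [h3, zero_add]
    have : ∑ i ∈ Finset.range k, (-net v (2 * i) + 2 * -net v (2 * i + 1)) * 4 ^ i =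
        - ∑ i ∈ Finset.range k, (net v (2 * i) + 2 * net v (2 * i + 1)) * 4 ^ i := by
      rw [← Finset.sum_neg_distrib]
      refine Finset.sum_congr rfl fun i _ => ?_
      ring
    rw [this, h4]
    linarith)
  simp only [abs_neg, abs_zero, zero_add] at h5
  have h6 : ∑ i ∈ Finset.range k, |net u (2 * i)| = u.length := by
    rw [← h2, sum_pairs]
    refine Finset.sum_congr rfl fun i _ => ?_
    rw [hodd, abs_zero, add_zero]
  have h7 : ∑ i ∈ Finset.range k, (|net v (2 * i)| + |net v (2 * i + 1)|) ≤ v.length := by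
    have h8 := sum_pairs (fun j => |net v j|) k
    rw [← h8]
    exact sum_abs_net_le v _
  have : (u.length : ℤ) ≤ v.length := by linarith
  exact_mod_cast this

end Pool.Agent.H429R4.Dehn
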