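import Pool.Agent.H429R4.Dehn.Words

/-!
# Counting the words of a Dehn presentation
-/

namespace Pool.Agent.H429R4.Dehn

open Equiv

/-- All pairs of a segment of length `m + 1` of a cyclic permutation of a relator or of its
inverse and a number below `m`. -/
def cands {k : ℕ} (m : ℕ) (R : List (Word k)) : List (Word k × ℕ) :=
  R.flatMap fun r₀ => [r₀, FreeGroup.invRev r₀].flatMap fun r₁ =>
    (List.range r₀.length).flatMap fun i => (List.range r₀.length).flatMap fun a =>
      (List.range m).map fun j => (((FreeGroup.reduce (r₁.rotate i)).drop a).take (m + 1), j)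

theorem length_cands {k : ℕ} (m : ℕ) (R : List (Word k)) :
    (cands m R).length = (R.map fun r => 2 * (r.length * (r.length * m))).sum := by
  unfold cands
  rw [List.length_flatMap]
  congr 1
  refine List.map_congr_left fun r _ => ?_
  simp only [List.length_flatMap, List.length_map, List.length_range, List.map_cons, List.map_nil,
    List.sum_cons, List.sum_nil, List.map_const', List.sum_replicate, smul_eq_mul]
  ring

theorem sum_sq_le {k : ℕ} (R : List (Word k)) :
    (R.map fun r => r.length * r.length).sum ≤ total R * total R := by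
  induction R with
  | nil => simp [total]
  | cons r R ih =>
    unfold total at *
    rw [List.map_cons, List.sum_cons, List.map_cons, List.sum_cons]
    nlinarith [Nat.zero_le (r.length * (R.map List.length).sum)]

theorem length_cands_le {k : ℕ} (m : ℕ) (R : List (Word k)) :
    (cands m R).length ≤ 2 * m * (total R * total R) := by
  rw [length_cands]
  have h1 : (R.map fun r => 2 * (r.length * (r.length * m))).sum =
      2 * m * (R.map fun r => r.length * r.length).sum := by
    rw [← List.sum_map_mul_left]
    congr 1
    refine List.map_congr_left fun r _ => ?_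
    ring
  rw [h1]
  exact Nat.mul_le_mul_left _ (sum_sq_le R)

theorem length_reduce_le {k : ℕ} (w : Word k) : (FreeGroup.reduce w).length ≤ w.length :=
  (FreeGroup.reduce.red (L := w)).length_le

theorem exists_cand {m n : ℕ} (hm : 2 * m ≤ n + 2) (hm2 : 2 ≤ m) {R : List (Word (n + 1))}
    (hR : ncl R = ncl (famRels n)) (hD : IsDehn R) (π : Perm (Fin m)) :
    ∃ j, j < m ∧ (seg hm π j, j) ∈ cands m R := by
  have hval : ∀ r ∈ star R, val r = 0 := by
    have h1 : ∀ r₀ ∈ R, ∀ i, val (r₀.rotate i) = 0 := by
      intro r₀ hr i
      have h2 : val r₀ = 0 := by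
        rw [← mem_ncl_iff, ← hR]
        exact Subgroup.subset_normalClosure ⟨r₀, hr, rfl⟩
      rw [List.rotate_eq_drop_append_take_mod, val_append, add_comm, ← val_append,
        List.take_append_drop]
      exact h2
    have h3 : ∀ w : Word (n + 1), val (FreeGroup.reduce w) = val w := by
      intro w
      have h4 := phi_mk (FreeGroup.reduce w)
      rw [show FreeGroup.mk (FreeGroup.reduce w) = FreeGroup.mk w from
        FreeGroup.reduce.self, phi_mk] at h4
      exact (Multiplicative.ofAdd.injective h4).symm
    have h5 : ∀ w : Word (n + 1), val (FreeGroup.invRev w) = - val w := by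
      intro w
      have h4 := phi_mk (FreeGroup.invRev w)
      rw [← FreeGroup.inv_mk, map_inv, phi_mk, ← ofAdd_neg] at h4
      exact (Multiplicative.ofAdd.injective h4).symm
    rintro r ⟨r₀, hr, i, rfl | rfl⟩
    · rw [h3, h1 r₀ hr]
    · rw [h3]
      have h6 : val ((FreeGroup.invRev r₀).rotate i) = val (FreeGroup.invRev r₀) := by
        rw [List.rotate_eq_drop_append_take_mod, val_append, add_comm, ← val_append,
          List.take_append_drop]
      have h7 := h1 r₀ hr 0
      rw [List.rotate_zero] at h7
      rw [h6, h5, h7, neg_zero]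
  have hne : wd (n := n) hm π ≠ [] := by
    intro h
    have := length_wd (n := n) hm π
    rw [h] at this
    simp at this
    omega
  obtain ⟨u, v, hu, huv, hlt⟩ := hD (wd hm π) hne (wd_reduced hm hm2 π) (by
    rw [hR, mem_ncl_iff]
    exact val_wd hm π)
  obtain ⟨a, j, hj, ha, hseg⟩ := exists_seg hm hu (by rw [← val_append]; exact hval _ huv) hlt
  refine ⟨j, hj, ?_⟩
  have hseglen : (seg (n := n) hm π j).length = m + 1 := by
    unfold seg
    rw [List.length_take, List.length_drop, length_wd]
    omega
  have hua : a + (m + 1) ≤ u.length := by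
    rw [← hseg, List.length_take, List.length_drop] at hseglen
    omega
  have hseg2 : ((u ++ v).drop a).take (m + 1) = seg hm π j := by
    rw [← hseg, List.drop_append_of_le_length (by omega), List.take_append_of_le_length]
    rw [List.length_drop]
    omega
  obtain ⟨r₀, hr, i, hi⟩ := huv
  have key : ∀ r₁ : Word (n + 1), r₁.length = r₀.length → r₁ ∈ [r₀, FreeGroup.invRev r₀] →
      u ++ v = FreeGroup.reduce (r₁.rotate i) → (seg hm π j, j) ∈ cands m R := by
    intro r₁ hlen hmem heq
    have hlen2 : (u ++ v).length ≤ r₀.length := by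
      rw [heq]
      refine (length_reduce_le _).trans ?_
      rw [List.length_rotate, hlen]
    have hpos : 0 < r₀.length := by
      rw [List.length_append] at hlen2
      omega
    unfold cands
    rw [List.mem_flatMap]
    refine ⟨r₀, hr, ?_⟩
    rw [List.mem_flatMap]
    refine ⟨r₁, hmem, ?_⟩
    rw [List.mem_flatMap]
    refine ⟨i % r₀.length, List.mem_range.2 (Nat.mod_lt _ hpos), ?_⟩
    rw [List.mem_flatMap]
    refine ⟨a, List.mem_range.2 (by rw [List.length_append] at hlen2; omega), ?_⟩
    rw [List.mem_map]
    refine ⟨j, List.mem_range.2 hj, ?_⟩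
    rw [← hseg2, heq, ← hlen, List.rotate_mod]
  rcases hi with hi | hi
  · exact key r₀ rfl (by simp) hi
  · exact key _ (FreeGroup.invRev_length) (by simp) hi

theorem factorial_le {m n : ℕ} (hm : 2 * m ≤ n + 2) (hm2 : 2 ≤ m) {R : List (Word (n + 1))}
    (hR : ncl R = ncl (famRels n)) (hD : IsDehn R) :
    m.factorial ≤ 2 * m * (total R * total R) := by
  classical
  choose f hf1 hf2 using exists_cand hm hm2 hR hD
  have h1 : (Finset.univ : Finset (Perm (Fin m))).card ≤ (cands m R).toFinset.card := by
    refine Finset.card_le_card_of_injOn (fun π => (seg hm π (f π), f π)) (fun π _ => ?_) ?_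
    · simpa using hf2 π
    · intro π _ π' _ h
      simp only [Prod.mk.injEq] at h
      obtain ⟨h2, h3⟩ := h
      rw [← h3] at h2
      exact seg_inj hm (hf1 π) h2
  rw [Finset.card_univ, Fintype.card_perm, Fintype.card_fin] at h1
  exact h1.trans ((List.toFinset_card_le _).trans (length_cands_le m R))

end Pool.Agent.H429R4.Dehn
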