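import Mathlib
import Pool.Agent.NPC.Defs

/-!
# Dehn presentations of hyperbolic groups: definitions
-/

namespace Pool.Agent.H429R4.Dehn

open Pool.Agent.NPC

/-- Words over the alphabet `X ∪ X⁻¹`, `X = {x_0, ..., x_(k-1)}`. The letter `(i, true)` is `x_i`,
the letter `(i, false)` is the inverse of `x_i`. -/
abbrev Word (k : ℕ) := List (Fin k × Bool)

/-- A finite presentation: the number of the generators and the list of the relators. -/
structure Pres where
  /-- the number of generators -/
  k : ℕ
  /-- the relators -/
  rels : List (Word k)

/-- The sum of the lengths of finitely many words. -/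
def total {k : ℕ} (R : List (Word k)) : ℕ := (R.map List.length).sum

/-- The size of a presentation: the number of generators plus the sum of the lengths of the
relators. -/
def Pres.size (P : Pres) : ℕ := P.k + total P.rels

/-- The normal closure of a finite set of words in the free group on the generators. -/
def ncl {k : ℕ} (R : List (Word k)) : Subgroup (FreeGroup (Fin k)) :=
  Subgroup.normalClosure {x | ∃ r ∈ R, x = FreeGroup.mk r}

instance {k : ℕ} (R : List (Word k)) : (ncl R).Normal := by
  unfold ncl
  infer_instance

/-- The group defined by a presentation. -/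
abbrev Pres.Grp (P : Pres) : Type := FreeGroup (Fin P.k) ⧸ ncl P.rels

/-- The set `R^*` of all cyclic permutations of the elements of `R` and of their inverses, freely
reduced. -/
def star {k : ℕ} (R : List (Word k)) : Set (Word k) :=
  {r | ∃ r₀ ∈ R, ∃ i : ℕ, r = FreeGroup.reduce (r₀.rotate i) ∨
    r = FreeGroup.reduce ((FreeGroup.invRev r₀).rotate i)}

/-- The presentation with relators `R` is a Dehn presentation: every nonempty freely reduced word
which represents the identity contains a subword `u` such that some element of `R^*` is `u v` with
`|v| < |u|`. -/
def IsDehn {k : ℕ} (R : List (Word k)) : Prop :=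
  ∀ w : Word k, w ≠ [] → FreeGroup.IsReduced w → FreeGroup.mk w ∈ ncl R →
    ∃ u v : Word k, u <:+: w ∧ u ++ v ∈ star R ∧ v.length < u.length

/-- The Cayley graph of `G` with respect to the set `S`. -/
def cay {G : Type} [Group G] (S : Set G) : SimpleGraph G where
  Adj g h := g ≠ h ∧ ∃ s ∈ S, h = g * s ∨ g = h * s
  symm := ⟨by
    rintro g h ⟨h1, s, hs, h2⟩
    exact ⟨h1.symm, s, hs, h2.symm⟩⟩
  loopless := ⟨fun g hg => hg.1 rfl⟩

/-- `G` is word-hyperbolic: for some finite generating set `S` there is `δ` such that every
geodesic triangle of the Cayley graph is `δ`-thin: each vertex on the side `p` from `x` to `y` has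
distance at most `δ` to some vertex on one of the two other sides `q` and `r` (this for all geodesic
triangles, so that it holds for each side of each triangle). -/
def Hyperbolic (G : Type) [Group G] : Prop :=
  ∃ S : Finset G, Subgroup.closure (S : Set G) = ⊤ ∧ ∃ δ : ℕ, ∀ (x y z : G)
    (p : (cay (S : Set G)).Walk x y) (q : (cay (S : Set G)).Walk y z)
    (r : (cay (S : Set G)).Walk x z),
    p.length = (cay (S : Set G)).dist x y → q.length = (cay (S : Set G)).dist y z →
    r.length = (cay (S : Set G)).dist x z →
      ∀ v ∈ p.support, ∃ w, (w ∈ q.support ∨ w ∈ r.support) ∧ (cay (S : Set G)).dist v w ≤ δ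

/-- The letters of words, with the number of the generator as a natural number. -/
def plain {k : ℕ} (R : List (Word k)) : List (List (ℕ × Bool)) :=
  R.map (List.map fun p => (p.1.val, p.2))

/-- The bit string coding a finite presentation (the number of generators is coded in unary, so
that the length of the code is at least the size). -/
def Pres.code (P : Pres) : List Bool := bits (List.replicate P.k (), plain P.rels)

/-- The bit string coding a finite set of words. -/
def codeWords {k : ℕ} (R : List (Word k)) : List Bool := bits (plain R)

/-- The relators `x_i x_i x_(i+1)⁻¹` for `i < n`, on the generators `x_0, ..., x_n`. -/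
def famRels (n : ℕ) : List (Word (n + 1)) :=
  List.ofFn fun i : Fin n => [(i.castSucc, true), (i.castSucc, true), (i.succ, false)]

/-- The presentation with generators `x_0, ..., x_n` and relators `x_i x_i x_(i+1)⁻¹` for
`i < n`. -/
def fam (n : ℕ) : Pres := ⟨n + 1, famRels n⟩

end Pool.Agent.H429R4.Dehn
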