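import Pool.Agent.H429R4.Dehn.Grp

/-!
# The group of the presentation `fam n` has a Dehn presentation on the same generators
-/

namespace Pool.Agent.H429R4.Dehn

variable {n : ℕ}

theorem val_replicate (j : Fin (n + 1)) (q : ℕ) :
    val (List.replicate q (j, true)) = q * 2 ^ j.val := by
  induction q with
  | zero => simp [val]
  | succ q ih =>
    rw [List.replicate_succ, val, ih]
    simp only [sgn, if_true]
    push_cast
    ring

theorem exists_binary (j : ℕ) (hj : j ≤ n + 1) : ∀ r : ℕ, r < 2 ^ j →
    ∃ v : Word (n + 1), v.length ≤ j ∧ val v = r := by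
  induction j with
  | zero =>
    intro r hr
    refine ⟨[], le_rfl, ?_⟩
    simp only [pow_zero, Nat.lt_one_iff] at hr
    simp [val, hr]
  | succ j ih =>
    intro r hr
    rcases lt_or_ge r (2 ^ j) with h | h
    · obtain ⟨v, h1, h2⟩ := ih (by omega) r h
      exact ⟨v, by omega, h2⟩
    · obtain ⟨v, h1, h2⟩ := ih (by omega) (r - 2 ^ j) (by rw [pow_succ] at hr; omega)
      refine ⟨(⟨j, by omega⟩, true) :: v, by simpa using h1, ?_⟩
      rw [val, h2, Nat.cast_sub h]
      simp [sgn]

/-- Change all signs. -/
def flip (w : Word (n + 1)) : Word (n + 1) := w.map fun p => (p.1, !p.2)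

theorem length_flip (w : Word (n + 1)) : (flip w).length = w.length := by simp [flip]

theorem val_flip (w : Word (n + 1)) : val (flip w) = - val w := by
  induction w with
  | nil => simp [flip, val]
  | cons p w ih =>
    have : flip (p :: w) = (p.1, !p.2) :: flip w := rfl
    rw [this, val, val, ih]
    rcases p with ⟨j, _ | _⟩ <;> simp [sgn] <;> ring

theorem exists_short (s : ℤ) : ∃ v : Word (n + 1), val v = s ∧
    (2 ^ n * v.length : ℤ) ≤ |s| + 2 ^ n * n := by
  have key : ∀ s : ℕ, ∃ v : Word (n + 1), val v = s ∧
      (2 ^ n * v.length : ℤ) ≤ s + 2 ^ n * n := by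
    intro s
    obtain ⟨v, hv1, hv2⟩ := exists_binary (n := n) n (by omega) (s % 2 ^ n)
      (Nat.mod_lt _ (by positivity))
    refine ⟨List.replicate (s / 2 ^ n) (⟨n, by omega⟩, true) ++ v, ?_, ?_⟩
    · rw [val_append, val_replicate, hv2]
      have := Nat.div_add_mod s (2 ^ n)
      have h2 : ((2 ^ n * (s / 2 ^ n) + s % 2 ^ n : ℕ) : ℤ) = s := by rw [this]
      push_cast at h2 ⊢
      linarith
    · rw [List.length_append, List.length_replicate]
      have h1 : 2 ^ n * (s / 2 ^ n) ≤ s := Nat.mul_div_le _ _
      have h2 : 2 ^ n * (s / 2 ^ n + v.length) ≤ s + 2 ^ n * n := by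
        rw [mul_add]
        exact Nat.add_le_add h1 (Nat.mul_le_mul_left _ hv1)
      exact_mod_cast h2
  rcases le_total 0 s with h | h
  · obtain ⟨k, rfl⟩ := Int.eq_ofNat_of_zero_le h
    obtain ⟨v, h1, h2⟩ := key k
    exact ⟨v, h1, by rw [abs_of_nonneg h]; exact h2⟩
  · obtain ⟨k, hk⟩ := Int.eq_ofNat_of_zero_le (neg_nonneg.2 h)
    obtain ⟨v, h1, h2⟩ := key k
    refine ⟨flip v, by rw [val_flip, h1, ← hk, neg_neg], ?_⟩
    rw [length_flip, abs_of_nonpos h, hk]
    exact h2

theorem abs_val_le (w : Word (n + 1)) : |val w| ≤ 2 ^ n * w.length := by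
  induction w with
  | nil => simp [val]
  | cons p w ih =>
    rw [val, List.length_cons]
    have h1 : |sgn p.2 * 2 ^ p.1.val| ≤ (2 : ℤ) ^ n := by
      rw [abs_mul, abs_sgn, one_mul, abs_of_nonneg (by positivity)]
      exact pow_le_pow_right₀ (by norm_num) (by have := p.1.isLt; omega)
    have h2 := abs_add_le (sgn p.2 * 2 ^ p.1.val) (val w)
    push_cast
    linarith

/-- A word is geodesic. -/
def Geo (u : Word (n + 1)) : Prop := ∀ v : Word (n + 1), val v = val u → u.length ≤ v.length

theorem Geo.le {u : Word (n + 1)} (h : Geo u) : (2 ^ n * (u.length - n) : ℤ) ≤ |val u| := by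
  obtain ⟨v, hv1, hv2⟩ := exists_short (n := n) (val u)
  have h1 := h v hv1
  have h2 : (u.length : ℤ) ≤ v.length := by exact_mod_cast h1
  have h3 : (2 ^ n * u.length : ℤ) ≤ 2 ^ n * v.length := by gcongr
  linarith

/-- A long word whose subwords of length `2 n + 2` are geodesic does not represent the identity. -/
theorem local_geo {w : Word (n + 1)} (hw : 2 * (2 * n + 2) ≤ w.length)
    (h : ∀ u : Word (n + 1), u <:+: w → u.length = 2 * n + 2 → Geo u) : val w ≠ 0 := by
  set H := 2 * n + 2 with hH
  set D : ℕ → ℤ := fun t => val ((w.drop t).take H) with hD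
  have hB : (0 : ℤ) < 2 ^ n := by positivity
  -- windows have large values
  have h1 : ∀ t, t + H ≤ w.length → (2 ^ n * (n + 2) : ℤ) ≤ |D t| := by
    intro t ht
    have hlen : ((w.drop t).take H).length = H := by
      rw [List.length_take, List.length_drop]
      omega
    have h2 := (h ((w.drop t).take H)
      ((List.take_prefix _ _).isInfix.trans (List.drop_suffix _ _).isInfix) hlen).le
    rw [hlen, hH] at h2
    push_cast at h2
    have e : (2 * (n : ℤ) + 2 - n) = n + 2 := by ring
    rw [e] at h2
    exact h2
  -- consecutive windows have close values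
  have h2 : ∀ t, t + 1 + H ≤ w.length → |D (t + 1) - D t| ≤ 2 * 2 ^ n := by
    intro t ht
    have ht' : t < w.length := by omega
    have e1 : (w.drop t).take (H + 1) = w[t] :: (w.drop (t + 1)).take H := by
      rw [List.drop_eq_getElem_cons ht', List.take_succ_cons]
    have e2 : (w.drop t).take (H + 1) = (w.drop t).take H ++ ((w.drop t).drop H).take 1 := by
      rw [List.take_add]
    have e3 : val ([w[t]]) + D (t + 1) = D t + val (((w.drop t).drop H).take 1) := by
      rw [hD]
      simp only
      rw [← val_append, ← val_append, ← e2, e1]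
      rfl
    have e4 := abs_val_le [w[t]]
    have e5 := abs_val_le (((w.drop t).drop H).take 1)
    have e6 : (((w.drop t).drop H).take 1).length ≤ 1 := by
      rw [List.length_take]
      omega
    have e7 : (2 ^ n * (((w.drop t).drop H).take 1).length : ℤ) ≤ 2 ^ n * 1 := by
      gcongr
      exact_mod_cast e6
    rw [List.length_singleton] at e4
    push_cast at e4
    rw [abs_le] at e4 e5 ⊢
    constructor <;> linarith [e4.1, e4.2, e5.1, e5.2]
  -- the sign
  obtain ⟨σ, hσ, hσ0⟩ : ∃ σ : ℤ, (σ = 1 ∨ σ = -1) ∧ 0 < σ * D 0 := by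
    have h3 := h1 0 (by omega)
    have h4 : (0 : ℤ) < |D 0| := lt_of_lt_of_le (by positivity) h3
    rcases lt_trichotomy (D 0) 0 with h5 | h5 | h5
    · exact ⟨-1, Or.inr rfl, by linarith⟩
    · rw [h5, abs_zero] at h4
      exact absurd h4 (lt_irrefl _)
    · exact ⟨1, Or.inl rfl, by linarith⟩
  have habs : ∀ t, 0 < σ * D t → |D t| = σ * D t := by
    intro t ht
    rcases hσ with rfl | rfl
    · rw [abs_of_pos (by linarith), one_mul]
    · rw [abs_of_neg (by linarith)]
      ring
  have h3 : ∀ t, t + H ≤ w.length → 0 < σ * D t := by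
    intro t
    induction t with
    | zero => intro _; exact hσ0
    | succ t ih =>
      intro ht
      have h4 := ih (by omega)
      have h5 := h1 t (by omega)
      rw [habs t h4] at h5
      by_contra hcon
      have h6 := h1 (t + 1) ht
      have h7 : |D (t + 1)| = - (σ * D (t + 1)) := by
        rcases hσ with rfl | rfl
        · rw [abs_of_nonpos (by linarith)]; ring
        · rw [abs_of_nonneg (by linarith)]; ring
      rw [h7] at h6
      have h8 := h2 t ht
      have h9 : |D (t + 1) - D t| = |σ * D (t + 1) - σ * D t| := by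
        rw [← mul_sub, abs_mul]
        rcases hσ with rfl | rfl <;> simp
      rw [h9, abs_le] at h8
      have h10 : (2 ^ n * 2 : ℤ) ≤ 2 ^ n * (n + 2) := by
        gcongr
        have : (0 : ℤ) ≤ n := by positivity
        linarith
      linarith [h8.1]
  -- prefixes
  have h4 : ∀ k : ℕ, k * H ≤ w.length →
      (k * (2 ^ n * (n + 2)) : ℤ) ≤ σ * val (w.take (k * H)) := by
    intro k
    induction k with
    | zero => intro _; simp [val]
    | succ k ih =>
      intro hk
      have hk' : k * H + H ≤ w.length := by
        rw [← Nat.succ_mul]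
        exact hk
      have h5 := ih (by omega)
      have h6 : w.take ((k + 1) * H) = w.take (k * H) ++ (w.drop (k * H)).take H := by
        rw [Nat.succ_mul, List.take_add]
      rw [h6, val_append, mul_add]
      have h7 := h1 (k * H) hk'
      rw [habs _ (h3 (k * H) hk')] at h7
      push_cast
      have h8 : D (k * H) = val ((w.drop (k * H)).take H) := rfl
      rw [← h8]
      linarith
  intro hval
  have hHpos : 0 < H := by omega
  set q := w.length / H with hq
  have hq1 : q * H ≤ w.length := Nat.div_mul_le_self _ _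
  have hq2 : 2 ≤ q := by
    rw [hq, Nat.le_div_iff_mul_le hHpos]
    exact hw
  have hq3 : w.length < q * H + H := by
    have := Nat.lt_div_mul_add (a := w.length) hHpos
    rw [← hq] at this
    exact this
  have h5 := h4 q hq1
  have h6 := abs_val_le (w.drop (q * H))
  have h7 : val (w.take (q * H)) + val (w.drop (q * H)) = 0 := by
    rw [← val_append, List.take_append_drop, hval]
  have h8 : ((w.drop (q * H)).length : ℤ) ≤ 2 * n + 1 := by
    rw [List.length_drop]
    have : w.length - q * H ≤ 2 * n + 1 := by omega
    exact_mod_cast this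
  have h9 : (2 ^ n * (w.drop (q * H)).length : ℤ) ≤ 2 ^ n * (2 * n + 1) := by gcongr
  have h10 : σ * val (w.take (q * H)) ≤ |val (w.drop (q * H))| := by
    have h11 : val (w.take (q * H)) = - val (w.drop (q * H)) := by linarith
    rw [h11]
    rcases hσ with rfl | rfl
    · rw [one_mul]; exact neg_le_abs _
    · rw [neg_one_mul, neg_neg]; exact le_abs_self _
  have h12 : (2 * (2 ^ n * (n + 2)) : ℤ) ≤ q * (2 ^ n * (n + 2)) := by
    gcongr
    exact_mod_cast hq2
  have h13 : (2 ^ n * (2 * n + 1) : ℤ) < 2 * (2 ^ n * (n + 2)) := by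
    have : (2 * (2 ^ n * (n + 2)) : ℤ) = 2 ^ n * (2 * n + 4) := by ring
    rw [this]
    have h14 : (2 * n + 1 : ℤ) < 2 * n + 4 := by linarith
    exact mul_lt_mul_of_pos_left h14 hB
  linarith

theorem finite_words (k L : ℕ) : {w : Word k | w.length ≤ L}.Finite := by
  exact List.finite_length_le _ _

/-- The presentation by all relators of length at most `4 n + 4` is a Dehn presentation. -/
theorem exists_dehn (n : ℕ) :
    ∃ R : List (Word (n + 1)), ncl R = ncl (famRels n) ∧ IsDehn R := by
  classical
  have hfin : {w : Word (n + 1) | w.length ≤ 4 * n + 4 ∧ val w = 0}.Finite :=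
    (finite_words (n + 1) (4 * n + 4)).subset fun w hw => hw.1
  set R := hfin.toFinset.toList with hRdef
  have hR : ∀ w, w ∈ R ↔ w.length ≤ 4 * n + 4 ∧ val w = 0 := by
    intro w
    rw [hRdef, Finset.mem_toList, Set.Finite.mem_toFinset]
    rfl
  have hncl : ncl R = ncl (famRels n) := by
    apply le_antisymm
    · refine Subgroup.normalClosure_le_normal ?_
      rintro x ⟨r, hr, rfl⟩
      exact (mem_ncl_iff r).2 ((hR r).1 hr).2
    · refine Subgroup.normalClosure_le_normal ?_
      rintro x ⟨r, hr, rfl⟩
      have hr' := hr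
      simp only [famRels, List.mem_ofFn] at hr'
      obtain ⟨i, hi⟩ := hr'
      refine Subgroup.subset_normalClosure ⟨r, (hR r).2 ⟨?_, ?_⟩, rfl⟩
      · rw [← hi]
        simp only [List.length_cons, List.length_nil]
        omega
      · rw [← mem_ncl_iff]
        exact Subgroup.subset_normalClosure ⟨r, hr, rfl⟩
  refine ⟨R, hncl, ?_⟩
  have hstar : ∀ r : Word (n + 1), r ∈ R → FreeGroup.IsReduced r → r ∈ star R := by
    intro r hr hred
    exact ⟨r, hr, 0, Or.inl (by rw [List.rotate_zero, hred.reduce_eq])⟩
  intro w hne hred hw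
  rw [hncl, mem_ncl_iff] at hw
  rcases le_or_gt w.length (4 * n + 4) with hlen | hlen
  · refine ⟨w, [], List.infix_rfl, ?_, ?_⟩
    · rw [List.append_nil]
      exact hstar w ((hR w).2 ⟨hlen, hw⟩) hred
    · exact List.length_pos_iff.2 hne
  · -- a shortest non-geodesic subword
    have h1 : ∃ l, ∃ u : Word (n + 1), u.length = l ∧ u <:+: w ∧ ¬ Geo u := by
      by_contra hcon
      push Not at hcon
      exact local_geo (by omega) (fun u hu _ => hcon _ u rfl hu) hw
    have h1' : ∃ u : Word (n + 1), u.length ≤ 2 * n + 2 ∧ u <:+: w ∧ ¬ Geo u := by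
      by_contra hcon
      push Not at hcon
      exact local_geo (by omega) (fun u hu hu2 => hcon u (by omega) hu) hw
    obtain ⟨u, hu1, hu2, hu3⟩ := Nat.find_spec h1
    have hmin := fun {l : ℕ} (hl : l < Nat.find h1) => Nat.find_min h1 hl
    have hulen : u.length ≤ 2 * n + 2 := by
      obtain ⟨u', h2, h3, h4⟩ := h1'
      rw [hu1]
      exact (Nat.find_min' h1 ⟨u', rfl, h3, h4⟩).trans h2
    -- a shortest word with the same value
    have h2 : ∃ l, ∃ v : Word (n + 1), v.length = l ∧ val v = val u := ⟨_, u, rfl, rfl⟩
    obtain ⟨v, hv1, hv2⟩ := Nat.find_spec h2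
    have hvmin : ∀ v' : Word (n + 1), val v' = val u → v.length ≤ v'.length := by
      intro v' hv'
      rw [hv1]
      exact Nat.find_min' h2 ⟨v', rfl, hv'⟩
    have hvu : v.length < u.length := by
      by_contra hcon
      apply hu3
      intro v' hv'
      exact (not_lt.1 hcon).trans (hvmin v' hv')
    have hval_reduce : ∀ x : Word (n + 1), val (FreeGroup.reduce x) = val x := by
      intro x
      have h4 := phi_mk (FreeGroup.reduce x)
      rw [show FreeGroup.mk (FreeGroup.reduce x) = FreeGroup.mk x from
        FreeGroup.reduce.self, phi_mk] at h4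
      exact (Multiplicative.ofAdd.injective h4).symm
    have hval_inv : ∀ x : Word (n + 1), val (FreeGroup.invRev x) = - val x := by
      intro x
      have h4 := phi_mk (FreeGroup.invRev x)
      rw [← FreeGroup.inv_mk, map_inv, phi_mk, ← ofAdd_neg] at h4
      exact (Multiplicative.ofAdd.injective h4).symm
    have hvred : FreeGroup.IsReduced v := by
      rw [FreeGroup.isReduced_iff_reduce_eq]
      have h3 : v.length ≤ (FreeGroup.reduce v).length :=
        hvmin _ (by rw [hval_reduce, hv2])
      have h4 : (FreeGroup.reduce v).Sublist v := (FreeGroup.reduce.red (L := v)).sublist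
      exact h4.eq_of_length_le h3
    have hwinv : FreeGroup.IsReduced (FreeGroup.invRev v) := by
      rw [FreeGroup.isReduced_iff_reduce_eq, FreeGroup.reduce_invRev, hvred.reduce_eq]
    refine ⟨u, FreeGroup.invRev v, hu2, ?_, by rw [FreeGroup.invRev_length]; exact hvu⟩
    have hmem : u ++ FreeGroup.invRev v ∈ R := by
      rw [hR]
      refine ⟨?_, ?_⟩
      · rw [List.length_append, FreeGroup.invRev_length]
        omega
      · rw [val_append, hval_inv, hv2, add_neg_cancel]
    refine hstar _ hmem ?_
    -- the product is reduced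
    unfold FreeGroup.IsReduced
    rw [List.isChain_append]
    have hured : FreeGroup.IsReduced u := by
      obtain ⟨s, t, hst⟩ := hu2
      rw [← hst] at hred
      unfold FreeGroup.IsReduced at hred ⊢
      exact hred.left_of_append.right_of_append
    refine ⟨hured, hwinv, ?_⟩
    intro a ha b hb hab
    by_contra hne2
    -- then the last letters of `u` and `v` agree
    obtain ⟨u1, hu1'⟩ : ∃ u1, u = u1 ++ [a] := by
      have := List.getLast?_eq_some_iff.1 ha
      exact this
    obtain ⟨v1, hv1'⟩ : ∃ v1, v = v1 ++ [a] := by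
      have h5 : (FreeGroup.invRev v).head? = some b := hb
      unfold FreeGroup.invRev at h5
      rw [List.head?_reverse, List.getLast?_map, Option.map_eq_some_iff] at h5
      obtain ⟨c, hc, hcb⟩ := h5
      obtain ⟨v1, hv1⟩ := List.getLast?_eq_some_iff.1 hc
      refine ⟨v1, ?_⟩
      rw [hv1]
      congr 2
      rw [← hcb] at hab hne2
      simp only at hab hne2
      refine Prod.ext hab.symm ?_
      revert hne2
      cases a.2 <;> cases c.2 <;> simp
    have h6 : val u1 = val v1 := by
      rw [hu1', hv1', val_append, val_append] at hv2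
      linarith
    have h7 : v1.length < u1.length := by
      rw [hu1', hv1', List.length_append, List.length_append] at hvu
      simpa using hvu
    refine hmin (l := u1.length) ?_ ⟨u1, rfl, ?_, ?_⟩
    · rw [← hu1, hu1', List.length_append, List.length_singleton]
      omega
    · refine List.IsInfix.trans ?_ hu2
      rw [hu1']
      exact (List.prefix_append _ _).isInfix
    · intro hg
      have := hg v1 h6.symm
      omega

end Pool.Agent.H429R4.Dehn
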