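import Pool.Agent.H429R4.Dehn.Arith

/-!
# The group of the presentation `fam n` is infinite cyclic
-/

namespace Pool.Agent.H429R4.Dehn

/-- The group of the presentation `fam n`. -/
abbrev FG (n : ℕ) : Type := FreeGroup (Fin (n + 1)) ⧸ ncl (famRels n)

/-- The homomorphism to the integers which maps the generator number `j` to `2 ^ j`. -/
def phi (k : ℕ) : FreeGroup (Fin k) →* Multiplicative ℤ :=
  FreeGroup.lift fun j => Multiplicative.ofAdd (2 ^ j.val : ℤ)

theorem phi_mk {k : ℕ} (w : Word k) : phi k (FreeGroup.mk w) = Multiplicative.ofAdd (val w) := by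
  unfold phi
  rw [FreeGroup.lift_mk]
  induction w with
  | nil => rfl
  | cons p w ih =>
    rw [List.map_cons, List.prod_cons, ih, val]
    rcases p with ⟨j, _ | _⟩
    · simp only [cond_false, sgn]
      rw [← ofAdd_neg, ← ofAdd_add]
      simp
    · simp only [cond_true, sgn]
      rw [← ofAdd_add]
      simp

theorem phi_ncl {n : ℕ} {x : FreeGroup (Fin (n + 1))} (hx : x ∈ ncl (famRels n)) :
    phi (n + 1) x = 1 := by
  have h : ncl (famRels n) ≤ (phi (n + 1)).ker := by
    unfold ncl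
    refine Subgroup.normalClosure_le_normal (N := (phi (n + 1)).ker) ?_
    rintro y ⟨r, hr, rfl⟩
    simp only [famRels, List.mem_ofFn] at hr
    obtain ⟨i, rfl⟩ := hr
    rw [SetLike.mem_coe, MonoidHom.mem_ker]
    change phi (n + 1) (FreeGroup.mk _) = 1
    rw [phi_mk, ofAdd_eq_one]
    simp only [val, sgn, Fin.val_castSucc, Fin.val_succ]
    rw [pow_succ]
    simp
    ring
  exact h hx

theorem val_eq_zero {n : ℕ} {w : Word (n + 1)}
    (hw : FreeGroup.mk w ∈ ncl (famRels n)) : val w = 0 := by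
  have h := phi_ncl hw
  rwa [phi_mk, ofAdd_eq_one] at h

/-- The image of the generator number `j` in the group. -/
def gen (n : ℕ) (j : Fin (n + 1)) : FG n := QuotientGroup.mk (FreeGroup.of j)

theorem gen_sq (n : ℕ) (i : Fin n) : gen n i.succ = gen n i.castSucc ^ 2 := by
  have h : FreeGroup.mk [(i.castSucc, true), (i.castSucc, true), (i.succ, false)] ∈
      ncl (famRels n) := by
    apply Subgroup.subset_normalClosure
    refine ⟨_, ?_, rfl⟩
    simp only [famRels, List.mem_ofFn]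
    exact ⟨i, rfl⟩
  have h2 : gen n i.castSucc * (gen n i.castSucc * (gen n i.succ)⁻¹) = 1 :=
    (QuotientGroup.eq_one_iff _).2 h
  rw [← mul_assoc, mul_inv_eq_one] at h2
  rw [← h2, pow_two]

theorem gen_eq (n : ℕ) : ∀ (j : ℕ) (hj : j < n + 1),
    gen n ⟨j, hj⟩ = gen n 0 ^ (2 ^ j : ℕ)
  | 0, _ => by simp
  | j + 1, hj => by
    have h1 := gen_eq n j (by omega)
    have h2 := gen_sq n ⟨j, by omega⟩
    change gen n ⟨j + 1, hj⟩ = gen n ⟨j, _⟩ ^ 2 at h2
    rw [h2, h1, ← pow_mul, ← pow_succ]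

theorem mk_eq {n : ℕ} (w : Word (n + 1)) :
    (QuotientGroup.mk (FreeGroup.mk w) : FG n) = gen n 0 ^ (val w) := by
  induction w with
  | nil => simp only [val, zpow_zero]; rfl
  | cons p w ih =>
    have h1 : (QuotientGroup.mk (FreeGroup.mk (p :: w)) : FG n) =
        (QuotientGroup.mk (FreeGroup.mk [p]) : FG n) *
          (QuotientGroup.mk (FreeGroup.mk w) : FG n) := rfl
    rw [h1, ih, val, zpow_add]
    congr 1
    rcases p with ⟨⟨j, hj⟩, _ | _⟩
    · have h2 : (QuotientGroup.mk (FreeGroup.mk [(⟨j, hj⟩, false)]) : FG n) =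
        (gen n ⟨j, hj⟩)⁻¹ := rfl
      rw [h2, gen_eq]
      simp only [sgn]
      simp [zpow_neg, ← zpow_natCast]
    · have h2 : (QuotientGroup.mk (FreeGroup.mk [(⟨j, hj⟩, true)]) : FG n) =
        (gen n ⟨j, hj⟩) := rfl
      rw [h2, gen_eq]
      simp only [sgn]
      simp [← zpow_natCast]

theorem mem_ncl_iff {n : ℕ} (w : Word (n + 1)) :
    FreeGroup.mk w ∈ ncl (famRels n) ↔ val w = 0 := by
  refine ⟨val_eq_zero, fun h => ?_⟩
  have h1 := mk_eq w
  rw [h, zpow_zero] at h1
  exact (QuotientGroup.eq_one_iff _).1 h1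

end Pool.Agent.H429R4.Dehn
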