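import Pool.Agent.H429R4.Dehn.Grp

/-!
# The group of the presentation `fam n` is hyperbolic
-/

namespace Pool.Agent.H429R4.Dehn

/-- The isomorphism (here: homomorphism) to the integers. -/
def ht (n : ℕ) : FG n →* Multiplicative ℤ :=
  QuotientGroup.lift (ncl (famRels n)) (phi (n + 1)) fun _ hx => phi_ncl hx

theorem ht_gen (n : ℕ) : ht n (gen n 0) = Multiplicative.ofAdd 1 := by
  have h : ht n (gen n 0) = phi (n + 1) (FreeGroup.of 0) := rfl
  rw [h]
  have h2 : phi (n + 1) (FreeGroup.of 0) = phi (n + 1) (FreeGroup.mk [(0, true)]) := rfl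
  rw [h2, phi_mk]
  simp [val, sgn]

theorem ht_inj (n : ℕ) : Function.Injective (ht n) := by
  rw [injective_iff_map_eq_one]
  intro g
  obtain ⟨x, rfl⟩ := QuotientGroup.mk_surjective g
  obtain ⟨w, rfl⟩ : ∃ w, FreeGroup.mk w = x := ⟨x.toWord, FreeGroup.mk_toWord⟩
  intro h
  have h2 : phi (n + 1) (FreeGroup.mk w) = 1 := h
  rw [phi_mk, ofAdd_eq_one] at h2
  exact (QuotientGroup.eq_one_iff _).2 ((mem_ncl_iff w).2 h2)

/-- The height. -/
def hh (n : ℕ) (g : FG n) : ℤ := Multiplicative.toAdd (ht n g)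

theorem hh_inj (n : ℕ) {g h : FG n} (e : hh n g = hh n h) : g = h :=
  ht_inj n (Multiplicative.toAdd.injective e)

theorem hh_mul (n : ℕ) (g : FG n) : hh n (g * gen n 0) = hh n g + 1 := by
  unfold hh
  rw [map_mul, toAdd_mul, ht_gen, toAdd_ofAdd]

theorem gen_generates (n : ℕ) (g : FG n) : ∃ z : ℤ, g = gen n 0 ^ z := by
  obtain ⟨x, rfl⟩ := QuotientGroup.mk_surjective g
  obtain ⟨w, rfl⟩ : ∃ w, FreeGroup.mk w = x := ⟨x.toWord, FreeGroup.mk_toWord⟩
  exact ⟨_, mk_eq w⟩

open Classical in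
/-- The generating set. -/
noncomputable def S0 (n : ℕ) : Finset (FG n) := {gen n 0}

theorem adj_iff (n : ℕ) {g h : FG n} : (cay (S0 n : Set (FG n))).Adj g h ↔
    hh n h = hh n g + 1 ∨ hh n g = hh n h + 1 := by
  have key : ∀ a b : FG n, hh n b = hh n a + 1 ↔ b = a * gen n 0 := by
    intro a b
    rw [← hh_mul]
    exact ⟨fun h => hh_inj n h, fun h => by rw [h]⟩
  rw [key, key]
  constructor
  · rintro ⟨_, s, hs, h⟩
    have hs' : s = gen n 0 := by simpa [S0] using hs
    rw [hs'] at h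
    exact h
  · intro h
    refine ⟨?_, gen n 0, by simp [S0], h⟩
    rintro rfl
    have h3 := hh_mul n g
    rcases h with h | h
    · rw [← h] at h3
      omega
    · rw [← h] at h3
      omega

theorem length_ge (n : ℕ) {x y : FG n} (p : (cay (S0 n : Set (FG n))).Walk x y) :
    |hh n x - hh n y| ≤ p.length := by
  induction p with
  | nil => simp
  | @cons a b c h p ih =>
    rw [adj_iff] at h
    rw [SimpleGraph.Walk.length_cons]
    push_cast
    rw [abs_le] at ih ⊢
    rcases h with h | h <;> constructor <;> omega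

theorem exists_walk (n : ℕ) (k : ℕ) : ∀ x y : FG n, hh n y = hh n x + k →
    ∃ p : (cay (S0 n : Set (FG n))).Walk x y, p.length = k := by
  induction k with
  | zero =>
    intro x y h
    have : x = y := hh_inj n (by simpa using h.symm)
    subst this
    exact ⟨.nil, rfl⟩
  | succ k ih =>
    intro x y h
    obtain ⟨p, hp⟩ := ih (x * gen n 0) y (by rw [hh_mul, h]; push_cast; ring)
    refine ⟨.cons ((adj_iff n).2 (Or.inl (hh_mul n x))) p, ?_⟩
    rw [SimpleGraph.Walk.length_cons, hp]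

theorem dist_le (n : ℕ) (x y : FG n) :
    ((cay (S0 n : Set (FG n))).dist x y : ℤ) ≤ |hh n x - hh n y| := by
  rcases le_total (hh n x) (hh n y) with h | h
  · obtain ⟨k, hk⟩ := Int.eq_ofNat_of_zero_le (sub_nonneg.2 h)
    obtain ⟨p, hp⟩ := exists_walk n k x y (by omega)
    have := SimpleGraph.dist_le p
    rw [abs_sub_comm, abs_of_nonneg (sub_nonneg.2 h), hk, ← hp]
    exact_mod_cast this
  · obtain ⟨k, hk⟩ := Int.eq_ofNat_of_zero_le (sub_nonneg.2 h)
    obtain ⟨p, hp⟩ := exists_walk n k y x (by omega)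
    have := SimpleGraph.dist_le p.reverse
    rw [abs_of_nonneg (sub_nonneg.2 h), hk, ← hp]
    rw [SimpleGraph.Walk.length_reverse] at this
    exact_mod_cast this

/-- A walk passes through all heights between the heights of its ends. -/
theorem ivt (n : ℕ) {x y : FG n} (p : (cay (S0 n : Set (FG n))).Walk x y) (c : ℤ)
    (hc : (hh n x ≤ c ∧ c ≤ hh n y) ∨ (hh n y ≤ c ∧ c ≤ hh n x)) :
    ∃ w ∈ p.support, hh n w = c := by
  induction p with
  | @nil a =>
    refine ⟨a, by simp, ?_⟩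
    rcases hc with h | h <;> omega
  | @cons a b d h p ih =>
    rw [adj_iff] at h
    by_cases hac : hh n a = c
    · exact ⟨a, by simp, hac⟩
    · have hc2 : (hh n b ≤ c ∧ c ≤ hh n d) ∨ (hh n d ≤ c ∧ c ≤ hh n b) := by
        rcases h with h | h <;> rcases hc with ⟨h1, h2⟩ | ⟨h1, h2⟩ <;> omega
      obtain ⟨w, hw, hw2⟩ := ih hc2
      exact ⟨w, by simp [hw], hw2⟩

theorem hyp_fam (n : ℕ) : Hyperbolic (FG n) := by
  classical
  refine ⟨S0 n, ?_, 0, ?_⟩
  · rw [eq_top_iff]
    intro g _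
    obtain ⟨z, rfl⟩ := gen_generates n g
    exact Subgroup.zpow_mem _ (Subgroup.subset_closure (by simp [S0])) z
  · intro x y z p q r hp _ _ v hv
    have h1 := length_ge n (p.takeUntil v hv)
    have h2 := length_ge n (p.dropUntil v hv)
    have h3 : (p.takeUntil v hv).length + (p.dropUntil v hv).length = p.length := by
      rw [← SimpleGraph.Walk.length_append, SimpleGraph.Walk.take_spec]
    have h4 := dist_le n x y
    rw [← hp, ← h3] at h4
    push_cast at h4
    have key : ∀ w, hh n w = hh n v → w = v := fun w hw => hh_inj n hw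
    rw [abs_le] at h1 h2
    have h5 : ((hh n y ≤ hh n v ∧ hh n v ≤ hh n z) ∨ (hh n z ≤ hh n v ∧ hh n v ≤ hh n y)) ∨
        ((hh n x ≤ hh n v ∧ hh n v ≤ hh n z) ∨ (hh n z ≤ hh n v ∧ hh n v ≤ hh n x)) := by
      rcases abs_cases (hh n x - hh n y) with ⟨h6, h7⟩ | ⟨h6, h7⟩ <;> rw [h6] at h4 <;> omega
    rcases h5 with h5 | h5
    · obtain ⟨w, hw, hw2⟩ := ivt n q _ h5
      refine ⟨w, Or.inl hw, ?_⟩
      rw [key w hw2, SimpleGraph.dist_self]
    · obtain ⟨w, hw, hw2⟩ := ivt n r _ h5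
      refine ⟨w, Or.inr hw, ?_⟩
      rw [key w hw2, SimpleGraph.dist_self]

end Pool.Agent.H429R4.Dehn
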