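import Pool.Agent.H429R4.Dehn.Count
import Pool.Agent.H429R4.Dehn.Hyp
import Pool.Agent.H429R4.Dehn.Exist
import Pool.Agent.H642R2.TMSim

/-!
# No polynomial-time computation of Dehn presentations
-/

namespace Pool.Agent.H429R4.Dehn

open Pool.Agent.NPC

theorem length_enc_ofList (l : List T) :
    (T.ofList l).enc.length = 1 + (l.map fun t => 1 + t.enc.length).sum := by
  induction l with
  | nil => rfl
  | cons a l ih =>
    rw [T.ofList, T.enc, List.length_cons, List.length_append, ih, List.map_cons, List.sum_cons]
    omega

theorem length_bits_list {α : Type} [TEnc α] (l : List α) :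
    (bits l).length = 1 + (l.map fun a => 1 + (bits a).length).sum := by
  have h : (bits l).length = (T.ofList (l.map toT)).enc.length := rfl
  rw [h, length_enc_ofList, List.map_map]
  rfl

theorem length_le_bits {α : Type} [TEnc α] (l : List α) : l.length ≤ (bits l).length := by
  rw [length_bits_list]
  induction l with
  | nil => simp
  | cons a l ih =>
    rw [List.length_cons, List.map_cons, List.sum_cons]
    omega

theorem total_le {k : ℕ} (R : List (Word k)) : total R ≤ (codeWords R).length := by
  unfold codeWords plain
  rw [length_bits_list, List.map_map]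
  unfold total
  induction R with
  | nil => simp
  | cons r R ih =>
    rw [List.map_cons, List.sum_cons, List.map_cons, List.sum_cons]
    have h1 := length_le_bits (List.map (fun p : Fin k × Bool => (p.1.val, p.2)) r)
    rw [List.length_map] at h1
    simp only [Function.comp_apply] at ih ⊢
    omega

theorem length_bits_bool (b : Bool) : (bits b).length ≤ 3 := by
  cases b <;> simp [bits, TEnc.toT, T.ofBool, T.enc]

theorem length_bits_nat (j : ℕ) : (bits j).length ≤ 1 + 4 * j := by
  have h : (bits j).length = (bits j.bits).length := rfl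
  rw [h, length_bits_list]
  have h1 : j.bits.length ≤ j := by
    rw [Nat.size_eq_bits_len]
    exact Nat.size_le.2 Nat.lt_two_pow_self
  have h2 : ∀ l : List Bool, (l.map fun a => 1 + (bits a).length).sum ≤ 4 * l.length := by
    intro l
    induction l with
    | nil => simp
    | cons a l ih =>
      rw [List.map_cons, List.sum_cons, List.length_cons]
      have := length_bits_bool a
      omega
  have := h2 j.bits
  omega

theorem length_bits_pair {α β : Type} [TEnc α] [TEnc β] (a : α) (b : β) :
    (bits (a, b)).length = 1 + (bits a).length + (bits b).length := by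
  have h : (bits (a, b)).length = (T.node (toT a) (toT b)).enc.length := rfl
  rw [h, T.enc, List.length_cons, List.length_append]
  unfold bits
  omega

theorem mem_famRels {n : ℕ} {r : Word (n + 1)} (h : r ∈ famRels n) :
    ∃ i : Fin n, [(i.castSucc, true), (i.castSucc, true), (i.succ, false)] = r := by
  simpa only [famRels, List.mem_ofFn] using h

theorem length_rel {n : ℕ} {r : Word (n + 1)} (h : r ∈ famRels n) :
    1 + (bits (r.map fun p => (p.1.val, p.2))).length ≤ 20 + 12 * n := by
  obtain ⟨i, rfl⟩ := mem_famRels h
  rw [length_bits_list]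
  simp only [List.map_cons, List.map_nil, List.sum_cons, List.sum_nil, length_bits_pair]
  have e1 := length_bits_nat (i.castSucc).val
  have e2 := length_bits_nat (i.succ).val
  have e3 := length_bits_bool true
  have e4 := length_bits_bool false
  have e5 := i.isLt
  simp only [Fin.val_castSucc, Fin.val_succ] at e1 e2 ⊢
  omega

theorem length_code_fam (n : ℕ) : (fam n).code.length ≤ 50 * (n + 1) ^ 2 := by
  unfold Pres.code
  rw [length_bits_pair]
  have h1 : (bits (List.replicate (fam n).k ())).length = 1 + 2 * (n + 1) := by
    rw [length_bits_list]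
    have h2 : (bits ()).length = 1 := rfl
    simp only [h2, fam, List.map_replicate, List.sum_replicate, smul_eq_mul]
    omega
  have h3 : (bits (plain (fam n).rels)).length ≤ 1 + n * (20 + 12 * n) := by
    rw [length_bits_list]
    have h4 : ∀ l ∈ plain (fam n).rels, 1 + (bits l).length ≤ 20 + 12 * n := by
      intro l hl
      unfold plain at hl
      rw [List.mem_map] at hl
      obtain ⟨r, hr, rfl⟩ := hl
      exact length_rel hr
    have h5 : (plain (fam n).rels).length = n := by
      simp [plain, fam, famRels]
    have h6 := List.sum_le_card_nsmul ((plain (fam n).rels).map fun a => 1 + (bits a).length)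
      (20 + 12 * n) (by
        intro x hx
        rw [List.mem_map] at hx
        obtain ⟨l, hl, rfl⟩ := hx
        exact h4 l hl)
    rw [List.length_map, h5, smul_eq_mul] at h6
    omega
  rw [h1]
  nlinarith

theorem size_fam (n : ℕ) : (fam n).size = 4 * n + 1 := by
  unfold Pres.size total
  simp only [fam, famRels, List.map_ofFn]
  rw [List.sum_ofFn]
  simp
  omega

theorem eval_le_pow (q : Polynomial ℕ) : ∃ c : ℕ, ∀ m : ℕ, q.eval m ≤ c ^ (m + 1) := by
  induction q using Polynomial.induction_on' with
  | add p q hp hq =>
    obtain ⟨a, ha⟩ := hp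
    obtain ⟨b, hb⟩ := hq
    refine ⟨a + b, fun m => ?_⟩
    rw [Polynomial.eval_add]
    refine (Nat.add_le_add (ha m) (hb m)).trans ?_
    exact pow_add_pow_le (Nat.zero_le _) (Nat.zero_le _) (by omega)
  | monomial k a =>
    refine ⟨a * 2 ^ k, fun m => ?_⟩
    rw [Polynomial.eval_monomial, mul_pow]
    rcases Nat.eq_zero_or_pos a with rfl | ha
    · simp
    · refine Nat.mul_le_mul (Nat.le_self_pow (by omega) a) ?_
      rw [← pow_mul, mul_comm k, pow_mul]
      refine Nat.pow_le_pow_left ?_ k
      exact (Nat.lt_two_pow_self (n := m)).le.trans (Nat.pow_le_pow_right (by norm_num) (by omega))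

theorem exists_factorial_gt (c : ℕ) : ∃ m : ℕ, 2 ≤ m ∧ c ^ (m + 1) < m.factorial := by
  have h := (FloorSemiring.tendsto_pow_div_factorial_atTop (c : ℝ)).const_mul (c : ℝ)
  rw [mul_zero] at h
  have h2 := (h.eventually (gt_mem_nhds (show (0 : ℝ) < 1 by norm_num))).and
    (Filter.eventually_ge_atTop 2)
  obtain ⟨m, hm1, hm2⟩ := h2.exists
  refine ⟨m, hm2, ?_⟩
  have h3 : (0 : ℝ) < m.factorial := by exact_mod_cast Nat.factorial_pos m
  rw [← mul_div_assoc, div_lt_one h3] at hm1
  have h4 : ((c ^ (m + 1) : ℕ) : ℝ) < (m.factorial : ℝ) := by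
    push_cast
    rw [pow_succ]
    linarith
  exact_mod_cast h4

theorem eval_mono' (p : Polynomial ℕ) {a b : ℕ} (hab : a ≤ b) : p.eval a ≤ p.eval b := by
  rw [Polynomial.eval_eq_sum, Polynomial.eval_eq_sum]
  exact Finset.sum_le_sum fun i _ => Nat.mul_le_mul_left _ (Nat.pow_le_pow_left hab i)

theorem size_le_code (P : Pres) : P.size ≤ P.code.length := by
  unfold Pres.size Pres.code
  rw [length_bits_pair]
  have h1 := length_le_bits (List.replicate P.k ())
  have h2 := total_le P.rels
  rw [List.length_replicate] at h1
  unfold codeWords at h2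
  omega

/-- The output of a function which finds Dehn presentations is not polynomially bounded. -/
theorem not_bounded (A : List Bool → List Bool) (p : Polynomial ℕ)
    (hp : ∀ n, (A (fam n).code).length ≤ p.eval (fam n).code.length)
    (hA : ∀ P : Pres, Hyperbolic P.Grp → ∃ R : List (Word P.k), A P.code = codeWords R ∧
      ncl R = ncl P.rels ∧ IsDehn R) : False := by
  have mono : ∀ a b : ℕ, a ≤ b → p.eval a ≤ p.eval b := fun a b hab => eval_mono' p hab
  set r : Polynomial ℕ := 2 * Polynomial.X *
    (p.comp (50 * (2 * Polynomial.X) ^ 2) * p.comp (50 * (2 * Polynomial.X) ^ 2)) with hr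
  obtain ⟨c, hc⟩ := eval_le_pow r
  obtain ⟨m, hm2, hm⟩ := exists_factorial_gt c
  obtain ⟨R, h1, h2, h3⟩ := hA (fam (2 * m - 1)) (hyp_fam _)
  have h4 := factorial_le (m := m) (n := 2 * m - 1) (by omega) hm2 h2 h3
  have h5 : total R ≤ p.eval (50 * (2 * m) ^ 2) := by
    refine (total_le R).trans ?_
    rw [← h1]
    refine (hp _).trans (mono _ _ ?_)
    refine (length_code_fam _).trans ?_
    gcongr
    omega
  have h6 : 2 * m * (total R * total R) ≤ r.eval m := by
    rw [hr]
    simp only [Polynomial.eval_mul, Polynomial.eval_comp, Polynomial.eval_pow, Polynomial.eval_X,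
      Polynomial.eval_ofNat]
    gcongr
  exact absurd (hm.trans_le (h4.trans (h6.trans (hc m)))) (lt_irrefl _)

end Pool.Agent.H429R4.Dehn
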