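import Pool.Agent.H429R4.Dehn.Grp

/-!
# Commutator-like words for the permutations of the generators with even numbers
-/

namespace Pool.Agent.H429R4.Dehn

open Equiv

section

variable {m n : ℕ} (hm : 2 * m ≤ n + 2)

/-- The generators with even numbers. -/
def ev (i : Fin m) : Fin (n + 1) := ⟨2 * i.val, by have := i.isLt; omega⟩

theorem ev_inj {i j : Fin m} (h : ev (n := n) hm i = ev hm j) : i = j := by
  have := congrArg Fin.val h
  simp only [ev] at this
  exact Fin.ext (by omega)

/-- The word `x_(2π(0)) ... x_(2π(m-1)) x_(2π(0))⁻¹ ... x_(2π(m-1))⁻¹`. -/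
def wd (π : Perm (Fin m)) : Word (n + 1) :=
  List.ofFn (fun i => (ev hm (π i), true)) ++ List.ofFn (fun i => (ev hm (π i), false))

theorem length_wd (π : Perm (Fin m)) : (wd (n := n) hm π).length = m + m := by
  simp [wd]

theorem wd_get_left (π : Perm (Fin m)) (t : ℕ) (ht : t < m) :
    (wd (n := n) hm π)[t]'(by rw [length_wd]; omega) = (ev hm (π ⟨t, ht⟩), true) := by
  unfold wd
  rw [List.getElem_append_left (by simpa using ht)]
  simp

theorem wd_get_right (π : Perm (Fin m)) (t : ℕ) (ht : t < m) :
    (wd (n := n) hm π)[m + t]'(by rw [length_wd]; omega) = (ev hm (π ⟨t, ht⟩), false) := by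
  unfold wd
  rw [List.getElem_append_right (by simp)]
  simp

theorem wd_mem {π : Perm (Fin m)} {p : Fin (n + 1) × Bool} (h : p ∈ wd hm π) :
    ∃ i, p.1 = ev hm i := by
  unfold wd at h
  rw [List.mem_append, List.mem_ofFn, List.mem_ofFn] at h
  rcases h with ⟨i, rfl⟩ | ⟨i, rfl⟩
  · exact ⟨π i, rfl⟩
  · exact ⟨π i, rfl⟩

theorem wd_nodup (π : Perm (Fin m)) : (wd (n := n) hm π).Nodup := by
  unfold wd
  rw [List.nodup_append]
  refine ⟨?_, ?_, ?_⟩
  · rw [List.nodup_ofFn]
    intro i j h
    simp only [Prod.mk.injEq, and_true] at h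
    exact π.injective (ev_inj hm h)
  · rw [List.nodup_ofFn]
    intro i j h
    simp only [Prod.mk.injEq, and_true] at h
    exact π.injective (ev_inj hm h)
  · intro a ha b hb hab
    rw [List.mem_ofFn] at ha hb
    obtain ⟨i, rfl⟩ := ha
    obtain ⟨j, rfl⟩ := hb
    simp at hab

theorem wd_reduced (hm2 : 2 ≤ m) (π : Perm (Fin m)) :
    FreeGroup.IsReduced (wd (n := n) hm π) := by
  unfold FreeGroup.IsReduced
  rw [List.isChain_iff_getElem]
  intro t ht
  rw [length_wd] at ht
  intro h1
  rcases lt_trichotomy (t + 1) m with h | h | h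
  · rw [wd_get_left hm π t (by omega), wd_get_left hm π (t + 1) h]
  · exfalso
    have e1 := wd_get_left (n := n) hm π t (by omega)
    have e2 := wd_get_right (n := n) hm π 0 (by omega)
    have e3 : (wd (n := n) hm π)[t + 1]'(by rw [length_wd]; omega) =
        (wd (n := n) hm π)[m + 0]'(by rw [length_wd]; omega) := by
      congr 1
    rw [e1, e3, e2] at h1
    have h2 := π.injective (ev_inj hm h1)
    simp only [Fin.mk.injEq] at h2
    omega
  · obtain ⟨s, rfl⟩ : ∃ s, t = m + s := ⟨t - m, by omega⟩
    have e1 := wd_get_right (n := n) hm π s (by omega)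
    have e2 := wd_get_right (n := n) hm π (s + 1) (by omega)
    rw [e1]
    have e3 : (wd (n := n) hm π)[m + s + 1]'(by rw [length_wd]; omega) =
        (wd (n := n) hm π)[m + (s + 1)]'(by rw [length_wd]; omega) := by
      congr 1
    rw [e3, e2]

theorem val_ofFn (b : Bool) (f : Fin m → Fin (n + 1)) :
    val (List.ofFn (fun i => (f i, b))) = sgn b * ∑ i, 2 ^ (f i).val := by
  induction m with
  | zero => simp [val]
  | succ m ih =>
    rw [List.ofFn_succ, val, Fin.sum_univ_succ, mul_add]
    have := ih (fun i => f i.succ)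
    rw [this]

theorem val_wd (π : Perm (Fin m)) : val (wd (n := n) hm π) = 0 := by
  unfold wd
  rw [val_append, val_ofFn, val_ofFn]
  simp [sgn]

/-- The segment of length `m + 1` of the word `wd π` which starts at the position `j`. -/
def seg (π : Perm (Fin m)) (j : ℕ) : Word (n + 1) := ((wd hm π).drop j).take (m + 1)

theorem seg_inj {π π' : Perm (Fin m)} {j : ℕ} (hj : j < m)
    (h : seg (n := n) hm π j = seg hm π' j) : π = π' := by
  have key : ∀ t, j ≤ t → t < m + j + 1 → ∀ (h1 : t < (wd (n := n) hm π).length)
      (h2 : t < (wd (n := n) hm π').length),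
      (wd (n := n) hm π)[t] = (wd (n := n) hm π')[t] := by
    intro t ht1 ht2 h1 h2
    have h3 : (seg (n := n) hm π j)[t - j]? = (seg (n := n) hm π' j)[t - j]? := by rw [h]
    unfold seg at h3
    rw [List.getElem?_take_of_lt (by omega), List.getElem?_take_of_lt (by omega),
      List.getElem?_drop, List.getElem?_drop, show j + (t - j) = t by omega,
      List.getElem?_eq_getElem h1, List.getElem?_eq_getElem h2] at h3
    exact Option.some.inj h3
  ext ⟨t, ht⟩
  rcases le_or_gt j t with h1 | h1
  · have h2 := key t h1 (by omega) (by rw [length_wd]; omega) (by rw [length_wd]; omega)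
    rw [wd_get_left hm π t ht, wd_get_left hm π' t ht] at h2
    exact congrArg Fin.val (ev_inj hm (Prod.ext_iff.1 h2).1)
  · have h2 := key (m + t) (by omega) (by omega) (by rw [length_wd]; omega)
      (by rw [length_wd]; omega)
    rw [wd_get_right hm π t ht, wd_get_right hm π' t ht] at h2
    exact congrArg Fin.val (ev_inj hm (Prod.ext_iff.1 h2).1)

/-- A subword of `wd π` which is not geodesic contains a segment of length `m + 1`. -/
theorem exists_seg {π : Perm (Fin m)} {u v : Word (n + 1)} (hu : u <:+: wd hm π)
    (huv : val u + val v = 0) (hlt : v.length < u.length) :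
    ∃ a j : ℕ, j < m ∧ a < u.length ∧ (u.drop a).take (m + 1) = seg hm π j := by
  obtain ⟨s, t, hst⟩ := hu
  have hnd := wd_nodup (n := n) hm π
  have hund : u.Nodup := by
    rw [← hst] at hnd
    exact ((List.nodup_append.1 (List.nodup_append.1 hnd).1).2.1)
  have hev : ∀ p ∈ u, ∃ i, p.1 = ev hm i := fun p hp => wd_mem (π := π) hm (by
    rw [← hst]
    simp [hp])
  -- some generator occurs twice
  have hdup : ¬ (u.map fun p => p.1).Nodup := by
    intro h
    have := length_le_of_val (v := v) h (fun p hp => by
      obtain ⟨i, hi⟩ := hev p hp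
      rw [hi]
      simp [ev]) huv
    omega
  have hdup2 : ∃ i, (ev (n := n) hm i, true) ∈ u ∧ (ev (n := n) hm i, false) ∈ u := by
    by_contra hcon
    push Not at hcon
    apply hdup
    refine List.Nodup.map_on ?_ hund
    intro p hp q hq hpq
    obtain ⟨i, hi⟩ := hev p hp
    rcases p with ⟨p1, p2⟩
    rcases q with ⟨q1, q2⟩
    simp only at hpq hi
    subst hpq
    subst hi
    cases p2 <;> cases q2
    · rfl
    · exact absurd hp (hcon i hq)
    · exact absurd hq (hcon i hp)
    · rfl
  obtain ⟨i, hi1, hi2⟩ := hdup2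
  obtain ⟨a, ha, hau⟩ := List.getElem_of_mem hi1
  obtain ⟨b, hb, hbu⟩ := List.getElem_of_mem hi2
  have hlen : s.length + u.length + t.length = m + m := by
    rw [← length_wd (n := n) hm π, ← hst]
    simp only [List.length_append]
  -- positions in the big word
  have hget : ∀ (c : ℕ) (hc : c < u.length),
      (wd (n := n) hm π)[s.length + c]'(by rw [length_wd]; omega) = u[c] := by
    intro c hc
    have h1 : (wd (n := n) hm π)[s.length + c]? = some u[c] := by
      rw [← hst, List.getElem?_append_left (by simp; omega),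
        List.getElem?_append_right (by omega), show s.length + c - s.length = c by omega,
        List.getElem?_eq_getElem hc]
    have h2 := List.getElem?_eq_getElem
      (show s.length + c < (wd (n := n) hm π).length by rw [length_wd]; omega)
    rw [h1] at h2
    exact (Option.some.inj h2).symm
  set j := (π.symm i).val with hjdef
  have hj : j < m := (π.symm i).isLt
  have hπj : π ⟨j, hj⟩ = i := by simp [hjdef]
  have e1 : s.length + a = j := by
    have h1 := hget a ha
    rw [hau] at h1
    have h2 := wd_get_left (n := n) hm π j hj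
    rw [hπj] at h2
    rw [← h2] at h1
    exact (List.Nodup.getElem_inj_iff hnd).1 h1
  have e2 : s.length + b = m + j := by
    have h1 := hget b hb
    rw [hbu] at h1
    have h2 := wd_get_right (n := n) hm π j hj
    rw [hπj] at h2
    rw [← h2] at h1
    exact (List.Nodup.getElem_inj_iff hnd).1 h1
  refine ⟨a, j, hj, ha, ?_⟩
  apply List.ext_getElem?
  intro c
  unfold seg
  rcases lt_or_ge c (m + 1) with hc | hc
  · rw [List.getElem?_take_of_lt hc, List.getElem?_take_of_lt hc, List.getElem?_drop,
      List.getElem?_drop, List.getElem?_eq_getElem (by omega : a + c < u.length)]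
    rw [← hget (a + c) (by omega)]
    rw [← List.getElem?_eq_getElem]
    congr 1
    omega
  · rw [List.getElem?_eq_none, List.getElem?_eq_none]
    · rw [List.length_take]; omega
    · rw [List.length_take]; omega

end

end Pool.Agent.H429R4.Dehn
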